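import Pool.Agent.H32.QFinal

/-!
# The q-congruence modulo `Phi_n(q)^2` with numerator parameters `q, ..., q^d`

For all `d ≥ 3` and `n > 1` with `n ≡ -1 (mod d(d+1)/2)`, writing `m = d(d+1)/2`,
`∑_{k<n} (q,q^2,...,q^d;q^m)_k / (q^m;q^m)_k^d * q^{mk} ≡ 0 (mod Phi_n(q)^2)`.
-/

namespace Pool.Agent.Results.MP_4d1f21_nt.QCongruenceQ1

open Polynomial

/-- The indeterminate `q` as an element of the field `FractionRing ℤ[X]` of rational
functions in `q` (the fraction field of `ℤ[q]`). -/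
noncomputable def q : FractionRing ℤ[X] := algebraMap ℤ[X] (FractionRing ℤ[X]) X

/-- The `q`-shifted factorial with base `Q`:
`(a;Q)_k = (1-a)(1-aQ)...(1-aQ^{k-1})`, and `(a;Q)_0 = 1`. -/
noncomputable def qPoch (a Q : FractionRing ℤ[X]) (k : ℕ) : FractionRing ℤ[X] := ∏ j ∈ Finset.range k, (1 - a * Q ^ j)

/-- The truncated sum of the problem, with base `q^m` where `m = d(d+1)/2`:
`∑_{k=0}^{n-1} (q,q^2,...,q^d;q^m)_k / (q^m;q^m)_k^d * q^{mk}`. -/
noncomputable def truncSum (d n : ℕ) : FractionRing ℤ[X] :=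
  ∑ k ∈ Finset.range n,
    (∏ i ∈ Finset.Icc 1 d, qPoch (q ^ i) (q ^ (d * (d + 1) / 2)) k) /
      (qPoch (q ^ (d * (d + 1) / 2)) (q ^ (d * (d + 1) / 2)) k) ^ d *
      q ^ (d * (d + 1) / 2 * k)

/-- `f ≡ 0 (mod P)` for a rational function `f` whose denominator is coprime to `Phi_n(q)`:
`f` can be written as `A/B` with `A, B ∈ ℤ[q]` and `B` coprime to `Phi_n(q)`, and for each such
way of writing it `P` divides `A` in `ℤ[q]`. -/
def CongrZero (n : ℕ) (P : ℤ[X]) (f : FractionRing ℤ[X]) : Prop :=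
  (∃ A B : ℤ[X], IsRelPrime B (cyclotomic n ℤ) ∧
    f = algebraMap ℤ[X] (FractionRing ℤ[X]) A / algebraMap ℤ[X] (FractionRing ℤ[X]) B) ∧
  ∀ A B : ℤ[X], IsRelPrime B (cyclotomic n ℤ) →
    f = algebraMap ℤ[X] (FractionRing ℤ[X]) A / algebraMap ℤ[X] (FractionRing ℤ[X]) B → P ∣ A

theorem result :
    ∀ d n : ℕ, 3 ≤ d → 1 < n → (n : ℤ) ≡ -1 [ZMOD ((d * (d + 1) / 2 : ℕ) : ℤ)] →
      CongrZero n ((cyclotomic n ℤ) ^ 2) (truncSum d n) := by
  intro d n hd hn hmod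
  obtain ⟨d', rfl⟩ : ∃ d', d = d' + 1 := ⟨d - 1, by omega⟩
  set m := (d' + 1) * (d' + 1 + 1) / 2 with hmdef
  -- `n + 1 = m t`
  obtain ⟨t, ht⟩ : ∃ t : ℕ, n + 1 = m * t := by
    have h1 : (m : ℤ) ∣ (n : ℤ) - (-1) := (Int.modEq_iff_dvd.mp hmod.symm)
    have h2 : (m : ℤ) ∣ ((n + 1 : ℕ) : ℤ) := by
      have : ((n + 1 : ℕ) : ℤ) = (n : ℤ) - (-1) := by push_cast; ring
      rw [this]; exact h1
    exact Int.natCast_dvd_natCast.mp h2
  have hsum : m = ∑ i ∈ Finset.range (d' + 1), (i + 1) := by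
    have h1 := Finset.sum_range_id_mul_two (d' + 1 + 1)
    rw [Finset.sum_range_succ', add_zero, Nat.add_sub_cancel] at h1
    rw [hmdef, mul_comm, ← h1, Nat.mul_div_cancel _ (by norm_num : 0 < 2)]
  obtain ⟨N, D, hDrel, hN, hEq⟩ := Pool.Agent.H32.QFinal.general (fun i => i + 1) m d' n t
    (fun i _ => Nat.succ_pos i) hsum (by omega) ht hn q rfl
  have hS : truncSum (d' + 1) n = algebraMap ℤ[X] (FractionRing ℤ[X]) N / algebraMap ℤ[X] (FractionRing ℤ[X]) D := by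
    rw [← hEq]
    unfold truncSum qPoch
    rw [← hmdef]
    refine Finset.sum_congr rfl fun k _ => ?_
    have h1 : ∏ i ∈ Finset.Icc 1 (d' + 1), ∏ j ∈ Finset.range k, (1 - q ^ i * (q ^ m) ^ j)
        = ∏ i ∈ Finset.range (d' + 1), ∏ j ∈ Finset.range k, (1 - q ^ (i + 1) * (q ^ m) ^ j) := by
      have h2 := Finset.prod_Ico_add' (fun i => ∏ j ∈ Finset.range k,
        (1 - q ^ i * (q ^ m) ^ j)) 0 (d' + 1) 1
      rw [← Finset.range_eq_Ico] at h2
      exact h2.symm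
    rw [h1, ← pow_mul q m k]
  refine ⟨⟨N, D, hDrel, hS⟩, ?_⟩
  intro A B hB hAB
  have hirr : Irreducible (cyclotomic n ℤ) := cyclotomic.irreducible (by omega)
  have hprime : Prime (cyclotomic n ℤ) := hirr.prime
  have hinj : Function.Injective (algebraMap ℤ[X] (FractionRing ℤ[X])) := IsFractionRing.injective _ _
  have hDnd : ¬ cyclotomic n ℤ ∣ D := (hirr.isRelPrime_iff_not_dvd).mp hDrel.symm
  have hBnd : ¬ cyclotomic n ℤ ∣ B := (hirr.isRelPrime_iff_not_dvd).mp hB.symm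
  have hD0 : algebraMap ℤ[X] (FractionRing ℤ[X]) D ≠ 0 := by
    intro h
    exact hDnd ((hinj (by rw [h, map_zero]) : D = 0) ▸ dvd_zero _)
  have hB0 : algebraMap ℤ[X] (FractionRing ℤ[X]) B ≠ 0 := by
    intro h
    exact hBnd ((hinj (by rw [h, map_zero]) : B = 0) ▸ dvd_zero _)
  have h3 : N * B = A * D := by
    apply hinj
    rw [map_mul, map_mul]
    have := hS.symm.trans hAB
    rwa [div_eq_div_iff hD0 hB0] at this
  have h4 : (cyclotomic n ℤ) ^ 2 ∣ A * D := h3 ▸ hN.mul_right B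
  exact hprime.pow_dvd_of_dvd_mul_right 2 hDnd h4

end Pool.Agent.Results.MP_4d1f21_nt.QCongruenceQ1
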